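import Pool.Agent.H30.EE.TargetsG

/-!
# GPT: products of constant linear forms (MP_70ba79_ag, board ee_modules)
-/

set_option autoImplicit false

namespace Pool.Agent.H34.EE

open MvPolynomial SC Pool.Agent.H27.LV Pool.Agent.H17.VG Pool.Agent.H30.EE

section

variable {K : Type} [Field K]

theorem map_mulLeft (Y : Submodule K (Polynomial K)) (p q : Polynomial K) :
    (Y.comap (LinearMap.mulLeft K p) ⊓ mlt q).map (LinearMap.mulLeft K p) = Y ⊓ mlt (q * p) := by
  ext y
  rw [Submodule.mem_map, Submodule.mem_inf]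
  unfold mlt
  rw [LinearMap.mem_range]
  constructor
  · rintro ⟨x, ⟨hx, ⟨w, rfl⟩⟩, rfl⟩
    exact ⟨hx, w, by simp only [LinearMap.mulLeft_apply]; ring⟩
  · rintro ⟨hy, ⟨w, rfl⟩⟩
    have e : (LinearMap.mulLeft K (q * p)) w = (LinearMap.mulLeft K p) (q * w) := by
      simp only [LinearMap.mulLeft_apply]
      ring
    refine ⟨q * w, ⟨?_, ⟨w, rfl⟩⟩, e.symm⟩
    show (LinearMap.mulLeft K p) (q * w) ∈ Y
    rw [← e]
    exact hy

theorem inj_mulLeft {p : Polynomial K} (hp : p ≠ 0) :
    Function.Injective (LinearMap.mulLeft K p) := by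
  intro a b h
  simp only [LinearMap.mulLeft_apply] at h
  exact mul_left_cancel₀ hp h

theorem finrank_mul (Y : Submodule K (Polynomial K)) {p : Polynomial K} (q : Polynomial K)
    (hp : p ≠ 0) :
    Module.finrank K ↥(Y.comap (LinearMap.mulLeft K p) ⊓ mlt q) =
      Module.finrank K ↥(Y ⊓ mlt (q * p)) := by
  rw [← map_mulLeft]
  exact (Submodule.equivMapOfInjective _ (inj_mulLeft hp) _).finrank_eq

theorem mlt_one : mlt (1 : Polynomial K) = ⊤ := by
  rw [eq_top_iff]
  intro y _
  exact ⟨y, by simp⟩

theorem fin_comap (Y : Submodule K (Polynomial K)) [FiniteDimensional K Y] {p : Polynomial K}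
    (hp : p ≠ 0) : FiniteDimensional K ↥(Y.comap (LinearMap.mulLeft K p)) := by
  have h1 : (Y.comap (LinearMap.mulLeft K p)).map (LinearMap.mulLeft K p) ≤ Y :=
    Submodule.map_comap_le _ _
  have h2 : FiniteDimensional K ↥((Y.comap (LinearMap.mulLeft K p)).map (LinearMap.mulLeft K p)) :=
    Submodule.finiteDimensional_of_le h1
  exact Module.Finite.equiv (Submodule.equivMapOfInjective _ (inj_mulLeft hp) _).symm

end

theorem up_lin {k K : Type} [Field k] [Field K] [Algebra k K] {n : ℕ} (l : Fin (n + 1) → k) :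
    up K (lin l) = lin (ul K l) := by
  unfold up lin ul
  rw [map_sum]
  refine Finset.sum_congr rfl fun j _ => ?_
  rw [map_mul, MvPolynomial.map_C, MvPolynomial.map_X]

theorem pf_GPT (hGPS : T_GPS) : T_GPT := by
  intro k K _ _ _ _ n r t z hz
  induction t with
  | zero =>
    intro Y _
    have h1 : resC z (up K (1 : MvPolynomial (Fin (n + 1)) k)) = 1 := by
      unfold resC up
      rw [map_one, map_one]
    refine ⟨1, isHomogeneous_one _ _, one_ne_zero, ?_, ?_⟩
    · rw [h1]
      exact one_ne_zero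
    · rw [h1, mlt_one, inf_top_eq]
      simp
  | succ t ih =>
    intro Y _
    obtain ⟨l, hl, hl2⟩ := hGPS k K n r z hz Y
    set p := resC z (lin (ul K l)) with hp
    have hfin := fin_comap Y hl
    obtain ⟨P, hP1, hP2, hP3, hP4⟩ := ih (Y.comap (LinearMap.mulLeft K p))
    have hlin0 : (lin l : MvPolynomial (Fin (n + 1)) k) ≠ 0 := by
      intro h0
      apply hl
      rw [hp, ← up_lin, h0]
      unfold resC up
      rw [map_zero, map_zero]
    have hmul : resC z (up K (P * lin l)) = resC z (up K P) * p := by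
      rw [hp, ← up_lin]
      unfold resC up
      rw [map_mul, map_mul]
    have hlinh : (lin l : MvPolynomial (Fin (n + 1)) k).IsHomogeneous 1 := by
      unfold lin
      refine MvPolynomial.IsHomogeneous.sum _ _ _ fun j _ => ?_
      have h := (isHomogeneous_C (Fin (n + 1)) (l j)).mul (isHomogeneous_X k j)
      rwa [zero_add] at h
    refine ⟨P * lin l, hP1.mul hlinh, mul_ne_zero hP2 hlin0, ?_, ?_⟩
    · rw [hmul]
      exact mul_ne_zero hP3 hl
    · rw [hmul, ← finrank_mul Y (resC z (up K P)) hl]
      have h2 : Module.finrank K ↥(Y.comap (LinearMap.mulLeft K p)) =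
          Module.finrank K ↥(Y ⊓ mlt p) := by
        have h3 := finrank_mul Y 1 hl
        rw [mlt_one, inf_top_eq, one_mul] at h3
        exact h3
      rw [h2] at hP4
      refine hP4.trans ?_
      have e : r * (t + 1) = r + r * t := by ring
      rw [e, Nat.sub_add_eq]
      exact Nat.sub_le_sub_right hl2 _

end Pool.Agent.H34.EE
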